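import Pool.Agent.Helper19.HV.StC

/-!
# Project HV, module DCM: `c` and `m` commute with the differentials
-/

set_option autoImplicit false

open scoped TensorProduct

namespace Pool.Agent.Helper19.HV

noncomputable section

open PL

private theorem dcm_cons {G : Type} [Field G] (j : ℕ) (x : G) (u : Fin j → G) :
    (Fin.cons (lg x) (fun i => lg (u i)) : Fin (j + 1) → V G) =
      fun i => lg ((Fin.cons x u : Fin (j + 1) → G) i) := by
  funext i
  refine Fin.cases rfl (fun _ => rfl) i

private theorem dcm_consC {F : Type} [Field F] (j : ℕ) (x : F) (u : Fin j → F) :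
    (Fin.cons (lg (RatFunc.C x)) (fun i => lg (RatFunc.C (u i))) :
      Fin (j + 1) → V (RatFunc F)) =
      fun i => lg (RatFunc.C ((Fin.cons x u : Fin (j + 1) → F) i)) := by
  funext i
  refine Fin.cases rfl (fun _ => rfl) i

private theorem dcm_cl1 {F : Type} [Field F] (x : F) :
    cl1 (Option.map (RatFunc.C : F → RatFunc F) (some x)) = lg (RatFunc.C (1 - x)) := by
  change lg (1 - RatFunc.C x) = _
  rw [map_sub, map_one]

private theorem dcm_cl {F : Type} [Field F] (x : F) :
    cl (Option.map (RatFunc.C : F → RatFunc F) (some x)) = lg (RatFunc.C x) := rfl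

private theorem dcm_snoc {F : Type} [Field F] (j : ℕ) (v : V (RatFunc F))
    (w : Fin j → V (RatFunc F)) (e : V (RatFunc F)) :
    (Fin.cons v (Fin.snoc (α := fun _ => V (RatFunc F)) w e) : Fin (j + 2) → V (RatFunc F)) =
      Fin.snoc (α := fun _ => V (RatFunc F)) (Fin.cons v w : Fin (j + 1) → V (RatFunc F)) e :=
  Fin.cons_snoc_eq_snoc_cons v w e

theorem mDCM : sGNR → sDCM := by
  intro hG F _ d d' c m hd hd' hc hm
  constructor
  · intro k j z
    rcases k with _ | _ | q
    · rfl
    · have key : d 1 j ∘ₗ c 2 j = c 1 (j + 1) ∘ₗ d' 1 j := by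
        apply gext 0 j
        intro x l
        have key2 : (d 1 j ∘ₗ c 2 j) ∘ₗ tmL 0 j x = (c 1 (j + 1) ∘ₗ d' 1 j) ∘ₗ tmL 0 j x := by
          apply hG F _ j
          intro u
          simp only [LinearMap.comp_apply, tmL_apply]
          rw [hc.two 0 j x u, hd.two, hd'.two]
          rcases x with _ | x
          · have e1 : cl1 (none : P1 F) = 0 := rfl
            have e2 : cl1 (Option.map (RatFunc.C : F → RatFunc F) none) = 0 := rfl
            rw [e1, e2, wdg_zero, wdg_zero]
            exact (map_zero (c 1 (j + 1))).symm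
          · have e1 : cl1 (some x) = lg (1 - x) := rfl
            have e2 : cl (some x) = lg x := rfl
            rw [dcm_cl1, dcm_cl, e1, e2, wdg_pr, wdg_pr, wdg_pr, wdg_pr, dcm_consC, dcm_consC,
              dcm_cons, dcm_cons, hc.one]
        exact LinearMap.congr_fun key2 l
      exact LinearMap.congr_fun key z
    · have key : d (q + 2) j ∘ₗ c (q + 3) j = c (q + 2) (j + 1) ∘ₗ d' (q + 2) j := by
        apply gext (q + 1) j
        intro x l
        have key2 : (d (q + 2) j ∘ₗ c (q + 3) j) ∘ₗ tmL (q + 1) j x =
            (c (q + 2) (j + 1) ∘ₗ d' (q + 2) j) ∘ₗ tmL (q + 1) j x := by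
          apply hG F _ j
          intro u
          simp only [LinearMap.comp_apply, tmL_apply]
          rw [hc.two (q + 1) j x u, hd.three, hd'.three]
          rcases x with _ | x
          · have e1 : (Option.map (RatFunc.C : F → RatFunc F) none) = none := rfl
            rw [e1, tm_none, tm_none, map_zero]
          · have e2 : cl (some x) = lg x := rfl
            rw [dcm_cl, e2, wdg_pr, wdg_pr, dcm_consC, dcm_cons, hc.two]
        exact LinearMap.congr_fun key2 l
      exact LinearMap.congr_fun key z
  · intro a k j y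
    rcases k with _ | _ | q
    · rfl
    · have key : d 1 (j + 1) ∘ₗ m a 2 j = m a 1 (j + 1) ∘ₗ d' 1 j := by
        apply gext 0 j
        intro x l
        have key2 : (d 1 (j + 1) ∘ₗ m a 2 j) ∘ₗ tmL 0 j x =
            (m a 1 (j + 1) ∘ₗ d' 1 j) ∘ₗ tmL 0 j x := by
          apply hG F _ j
          intro u
          simp only [LinearMap.comp_apply, tmL_apply]
          rw [hm.two a 0 j x u, hd.two, hd'.two]
          rcases x with _ | x
          · have e1 : cl1 (none : P1 F) = 0 := rfl
            have e2 : cl1 (Option.map (RatFunc.C : F → RatFunc F) none) = 0 := rfl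
            rw [e1, e2, wdg_zero, wdg_zero]
            exact (map_zero (m a 1 (j + 1))).symm
          · have e1 : cl1 (some x) = lg (1 - x) := rfl
            have e2 : cl (some x) = lg x := rfl
            rw [dcm_cl1, dcm_cl, e1, e2, wdg_pr, wdg_pr, wdg_pr, wdg_pr, dcm_snoc, dcm_snoc,
              dcm_consC, dcm_consC, dcm_cons, dcm_cons, hm.one]
        exact LinearMap.congr_fun key2 l
      exact LinearMap.congr_fun key y
    · have key : d (q + 2) (j + 1) ∘ₗ m a (q + 3) j = m a (q + 2) (j + 1) ∘ₗ d' (q + 2) j := by
        apply gext (q + 1) j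
        intro x l
        have key2 : (d (q + 2) (j + 1) ∘ₗ m a (q + 3) j) ∘ₗ tmL (q + 1) j x =
            (m a (q + 2) (j + 1) ∘ₗ d' (q + 2) j) ∘ₗ tmL (q + 1) j x := by
          apply hG F _ j
          intro u
          simp only [LinearMap.comp_apply, tmL_apply]
          rw [hm.two a (q + 1) j x u, hd.three, hd'.three]
          rcases x with _ | x
          · have e1 : (Option.map (RatFunc.C : F → RatFunc F) none) = none := rfl
            rw [e1, tm_none, tm_none, map_zero]
          · have e2 : cl (some x) = lg x := rfl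
            rw [dcm_cl, e2, wdg_pr, wdg_pr, dcm_snoc, dcm_consC, dcm_cons, hm.two]
        exact LinearMap.congr_fun key2 l
      exact LinearMap.congr_fun key y

end

end Pool.Agent.Helper19.HV
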