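import Pool.Agent.Helper19.HV.XS

/-!
# Project HV, module CA3: `D 0 = D 1 = 0`, `D (1 - l) = - D l`, `D l⁻¹ = - D l`
-/

set_option autoImplicit false

open Polynomial

namespace Pool.Agent.Helper19.HV

noncomputable section

open PL

private theorem ca3_c2 {F : Type} [Field F] {φ : F4 F} (hφ : Frm φ) (c : F)
    (w a b : V (RatFunc F)) : φ w a (lg (RatFunc.C c)) b = 0 := by
  rw [hφ.s12, hφ.c1]

private theorem ca3_c3 {F : Type} [Field F] {φ : F4 F} (hφ : Frm φ) (c : F)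
    (w a b : V (RatFunc F)) : φ w a b (lg (RatFunc.C c)) = 0 := by
  rw [hφ.s23, ca3_c2 hφ]

private theorem ca3_add {F : Type} [Field F] (φ : F4 F) (u v a b c : V (RatFunc F)) :
    φ (u + v) a b c = φ u a b c + φ v a b c := by
  rw [map_add, LinearMap.add_apply, LinearMap.add_apply, LinearMap.add_apply]

private theorem ca3_sub {F : Type} [Field F] (φ : F4 F) (u v a b c : V (RatFunc F)) :
    φ (u - v) a b c = φ u a b c - φ v a b c := by
  rw [map_sub, LinearMap.sub_apply, LinearMap.sub_apply, LinearMap.sub_apply]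

private theorem ca3_red {F : Type} [Field F] {φ : F4 F} (hφ : Frm φ) (u v : V (RatFunc F))
    (a b : F) : φ (u - lg (RatFunc.C a)) (v - lg (RatFunc.C b)) (v - lg (RatFunc.C b))
      (v - lg (RatFunc.C b)) = φ u v v v := by
  simp only [map_sub, LinearMap.sub_apply, hφ.c0, hφ.c1, ca3_c2 hφ, ca3_c3 hφ, sub_zero]

private theorem ca3_six {F : Type} [Field F] {φ : F4 F} (hφ : Frm φ) {y : RatFunc F}
    (h1 : Cal φ y) (s : F) : φ (e y s) (e y 0 + e y 1) (e y 0 + e y 1) (e y 0 + e y 1) =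
      6 * Df φ y s := by
  have a1 := (h1 0 0 s).1
  have a2 := (h1 1 0 s).1
  have a3 := (h1 0 1 s).2.1
  have b1 := hφ.s23 (e y s) (e y 0) (e y 1) (e y 0)
  have b2 := hφ.s12 (e y s) (e y 1) (e y 0) (e y 0)
  have b3 := hφ.s12 (e y s) (e y 1) (e y 0) (e y 1)
  have b4 := hφ.s23 (e y s) (e y 1) (e y 1) (e y 0)
  unfold Df
  simp only [map_add, LinearMap.add_apply]
  linarith

private theorem ca3_six' {F : Type} [Field F] {φ : F4 F} (hφ : Frm φ) {y : RatFunc F}
    (h1 : Cal φ y) (s : F) : φ (e y s) (e y 1 + e y 1 - e y 0) (e y 1 + e y 1 - e y 0)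
      (e y 1 + e y 1 - e y 0) = - (6 * Df φ y s) := by
  have a1 := (h1 0 0 s).1
  have a2 := (h1 1 0 s).1
  have a3 := (h1 0 1 s).2.1
  have b1 := hφ.s23 (e y s) (e y 0) (e y 1) (e y 0)
  have b2 := hφ.s12 (e y s) (e y 1) (e y 0) (e y 0)
  have b3 := hφ.s12 (e y s) (e y 1) (e y 0) (e y 1)
  have b4 := hφ.s23 (e y s) (e y 1) (e y 1) (e y 0)
  unfold Df
  simp only [map_add, LinearMap.add_apply, map_sub, LinearMap.sub_apply]
  linarith

theorem mCA3 {F : Type} [Field F] {φ : F4 F} (hφ : Frm φ) {Y S : RatFunc F → Prop}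
    (hC : Crd Y S) (hS : ∀ x, S x → Sv φ x) {y : RatFunc F} (hy : Y y) (h1 : Cal φ y) :
    Df φ y 0 = 0 ∧ Df φ y 1 = 0 ∧ (∀ l, Df φ y (1 - l) = - Df φ y l) ∧
      ∀ l, Df φ y l⁻¹ = - Df φ y l := by
  have hne : ∀ l : F, y - RatFunc.C l ≠ 0 := fun l => sub_ne_zero.2 (hC.nc y hy l)
  have h0 : Df φ y 0 = 0 := (h1 0 1 0).2.2
  have h01 : Df φ y 1 = 0 := by
    have a3 := (h1 0 1 1).2.1
    have b3 := hφ.s12 (e y 1) (e y 0) (e y 1) (e y 1)
    have b4 := hφ.s23 (e y 1) (e y 1) (e y 0) (e y 1)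
    have a4 := (h1 1 0 0).2.2
    unfold Df
    linarith
  have hCn : ∀ k : F, k ≠ 0 → (RatFunc.C k : RatFunc F) ≠ 0 := fun k hk => C_ne hk
  refine ⟨h0, h01, ?_, ?_⟩
  · intro l
    rcases eq_or_ne l 0 with rfl | hl0
    · rw [sub_zero, h01, h0, neg_zero]
    rcases eq_or_ne l 1 with rfl | hl1
    · rw [sub_self, h01, h0, neg_zero]
    have hk : l * (l - 1) ≠ 0 := mul_ne_zero hl0 (sub_ne_zero.2 hl1)
    have hk' := hCn _ hk
    have hs := hS _ (hC.sy y hy 1 (-1) 0 0 0 (l * (l - 1)))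
    have e1 : (RatFunc.C (1 : F) * y ^ 2 + RatFunc.C (-1 : F) * y + RatFunc.C (0 : F)) /
        (RatFunc.C (0 : F) * y ^ 2 + RatFunc.C (0 : F) * y + RatFunc.C (l * (l - 1))) =
        ((y - RatFunc.C (0 : F)) * (y - RatFunc.C 1)) / RatFunc.C (l * (l - 1)) := by
      congr 1
      · simp only [map_neg, map_one, map_zero]
        ring
      · simp only [map_zero]
        ring
    rw [e1] at hs
    have e2 : 1 - ((y - RatFunc.C (0 : F)) * (y - RatFunc.C 1)) / RatFunc.C (l * (l - 1)) =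
        -(((y - RatFunc.C l) * (y - RatFunc.C (1 - l))) / RatFunc.C (l * (l - 1))) := by
      rw [eq_neg_iff_add_eq_zero, sub_add, ← sub_div, sub_eq_zero, eq_comm, div_eq_one_iff_eq hk']
      simp only [map_sub, map_one, map_zero, map_mul]
      ring
    have l1 : lg (((y - RatFunc.C (0 : F)) * (y - RatFunc.C 1)) / RatFunc.C (l * (l - 1))) =
        (e y 0 + e y 1) - lg (RatFunc.C (l * (l - 1))) := by
      rw [lg_div' (mul_ne_zero (hne 0) (hne 1)) hk', lg_mul (hne 0) (hne 1)]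
      rfl
    have l2 : lg (1 - ((y - RatFunc.C (0 : F)) * (y - RatFunc.C 1)) /
        RatFunc.C (l * (l - 1))) = (e y l + e y (1 - l)) - lg (RatFunc.C (l * (l - 1))) := by
      rw [e2, lg_neg, lg_div' (mul_ne_zero (hne _) (hne _)) hk', lg_mul (hne _) (hne _)]
      rfl
    unfold Sv at hs
    rw [l1, l2, ca3_red hφ, ca3_add, ca3_six hφ h1, ca3_six hφ h1] at hs
    linarith
  · intro l
    rcases eq_or_ne l 0 with rfl | hl0
    · rw [inv_zero, h0, neg_zero]
    rcases eq_or_ne l 1 with rfl | hl1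
    · rw [inv_one, h01, neg_zero]
    have hl1' : l - 1 ≠ 0 := sub_ne_zero.2 hl1
    obtain ⟨k, hkdef⟩ : ∃ k : F, k = (l - 1) ^ 2 / l := ⟨_, rfl⟩
    have hk : k ≠ 0 := by
      rw [hkdef]
      exact div_ne_zero (pow_ne_zero 2 hl1') hl0
    have hk' := hCn _ hk
    have hkl : k + 2 = l + l⁻¹ := by
      rw [hkdef]
      field_simp
      ring
    have hklC : (RatFunc.C k : RatFunc F) = RatFunc.C l + RatFunc.C l⁻¹ - 2 := by
      have h2 : k = l + l⁻¹ - 2 := by rw [← hkl]; ring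
      rw [h2, map_sub, map_add, map_ofNat]
    have hs := hS _ (hC.sy y hy 1 (-2) 1 0 k 0)
    have e1 : (RatFunc.C (1 : F) * y ^ 2 + RatFunc.C (-2 : F) * y + RatFunc.C (1 : F)) /
        (RatFunc.C (0 : F) * y ^ 2 + RatFunc.C k * y + RatFunc.C (0 : F)) =
        ((y - RatFunc.C (1 : F)) * (y - RatFunc.C 1)) / (RatFunc.C k * (y - RatFunc.C 0)) := by
      congr 1
      · simp only [map_neg, map_one, map_ofNat]
        ring
      · simp only [map_zero]
        ring
    rw [e1] at hs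
    have hd : RatFunc.C k * (y - RatFunc.C 0) ≠ 0 := mul_ne_zero hk' (hne 0)
    have e2 : 1 - ((y - RatFunc.C (1 : F)) * (y - RatFunc.C 1)) /
        (RatFunc.C k * (y - RatFunc.C 0)) =
        -(((y - RatFunc.C l) * (y - RatFunc.C l⁻¹)) / (RatFunc.C k * (y - RatFunc.C 0))) := by
      have hll : (RatFunc.C l : RatFunc F) * RatFunc.C l⁻¹ = 1 := by
        rw [← map_mul, mul_inv_cancel₀ hl0, map_one]
      rw [eq_neg_iff_add_eq_zero, sub_add, ← sub_div, sub_eq_zero, eq_comm, div_eq_one_iff_eq hd]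
      rw [hklC, map_one, map_zero]
      linear_combination (-1 : RatFunc F) * hll
    have l1 : lg (((y - RatFunc.C (1 : F)) * (y - RatFunc.C 1)) /
        (RatFunc.C k * (y - RatFunc.C 0))) =
        (e y 1 + e y 1 - e y 0) - lg (RatFunc.C k) := by
      rw [lg_div' (mul_ne_zero (hne 1) (hne 1)) hd, lg_mul (hne 1) (hne 1),
        lg_mul hk' (hne 0)]
      unfold e
      abel
    have l2 : lg (1 - ((y - RatFunc.C (1 : F)) * (y - RatFunc.C 1)) /
        (RatFunc.C k * (y - RatFunc.C 0))) =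
        (e y l + e y l⁻¹ - e y 0) - lg (RatFunc.C k) := by
      rw [e2, lg_neg, lg_div' (mul_ne_zero (hne _) (hne _)) hd, lg_mul (hne _) (hne _),
        lg_mul hk' (hne 0)]
      unfold e
      abel
    unfold Sv at hs
    rw [l1, l2, ca3_red hφ, ca3_sub, ca3_add, ca3_six' hφ h1, ca3_six' hφ h1,
      ca3_six' hφ h1, h0] at hs
    linarith

end

end Pool.Agent.Helper19.HV
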